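import Mathlib

set_option autoImplicit false

open Finset

namespace Pool.Agent.H906Z.Unif

/-- index set: colour class `j` has `2 ^ j` points -/
abbrev I (k : ℕ) : Type := Σ j : Fin k, Fin (2 ^ (j : ℕ))

/-- colourings in the orbit of the standard one -/
abbrev Y (k : ℕ) : Type := {c : I k → Fin k // ∃ σ : Equiv.Perm (I k), c = Sigma.fst ∘ σ}

noncomputable instance (k : ℕ) : Fintype (Y k) := Fintype.ofFinite _

/-- sums over the colour classes -/
def L {k m : ℕ} (c : I k → Fin k) (a : I k → ZMod m) : Fin k → ZMod m :=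
  fun j => ∑ i, if c i = j then a i else 0

lemma L_add {k m : ℕ} (c : I k → Fin k) (a b : I k → ZMod m) : L c (a + b) = L c a + L c b := by
  funext j
  simp only [L, Pi.add_apply, ← Finset.sum_add_distrib]
  refine Finset.sum_congr rfl fun i _ => ?_
  split_ifs <;> simp

lemma L_zero {k m : ℕ} (c : I k → Fin k) : L c (0 : I k → ZMod m) = 0 := by
  funext j
  simp [L]

lemma L_comp {k m : ℕ} (c : I k → Fin k) (a : I k → ZMod m) (σ : Equiv.Perm (I k)) :
    L (c ∘ σ.symm) a = L c (a ∘ σ) := by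
  funext j
  simp only [L]
  rw [← Equiv.sum_comp σ]
  simp

/-- the wreath product -/
@[ext] structure GG (k m : ℕ) where
  a : I k → ZMod m
  s : Equiv.Perm (I k)

instance (k m : ℕ) : Mul (GG k m) := ⟨fun g h => ⟨h.a + g.a ∘ h.s, g.s * h.s⟩⟩
instance (k m : ℕ) : One (GG k m) := ⟨⟨0, 1⟩⟩
instance (k m : ℕ) : Inv (GG k m) := ⟨fun g => ⟨-(g.a ∘ g.s.symm), g.s⁻¹⟩⟩

@[simp] lemma mul_a {k m : ℕ} (g h : GG k m) : (g * h).a = h.a + g.a ∘ h.s := rfl
@[simp] lemma mul_s {k m : ℕ} (g h : GG k m) : (g * h).s = g.s * h.s := rfl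
@[simp] lemma one_a {k m : ℕ} : (1 : GG k m).a = 0 := rfl
@[simp] lemma one_s {k m : ℕ} : (1 : GG k m).s = 1 := rfl
@[simp] lemma inv_a {k m : ℕ} (g : GG k m) : (g⁻¹).a = -(g.a ∘ g.s.symm) := rfl
@[simp] lemma inv_s {k m : ℕ} (g : GG k m) : (g⁻¹).s = g.s⁻¹ := rfl

instance (k m : ℕ) : Group (GG k m) :=
  Group.ofLeftAxioms
    (fun g h l => by
      ext1
      · funext i
        simp [add_assoc]
      · simp [mul_assoc])
    (fun g => by
      ext1
      · funext i
        simp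
      · simp)
    (fun g => by
      ext1
      · funext i
        simp
      · simp)

instance (k m : ℕ) [NeZero m] : Finite (GG k m) :=
  Finite.of_injective (fun g : GG k m => (g.a, g.s)) (fun g h e => by
    simp only [Prod.mk.injEq] at e
    exact GG.ext e.1 e.2)

noncomputable instance (k m : ℕ) [NeZero m] : Fintype (GG k m) := Fintype.ofFinite _

/-- the set acted on -/
abbrev X (k m : ℕ) : Type := Y k × (Fin k → ZMod m)

/-- moving a colouring -/
def mv {k : ℕ} (σ : Equiv.Perm (I k)) (c : Y k) : Y k :=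
  ⟨c.1 ∘ σ.symm, by
    obtain ⟨τ, hτ⟩ := c.2
    exact ⟨τ * σ⁻¹, by rw [hτ]; rfl⟩⟩

instance (k m : ℕ) : SMul (GG k m) (X k m) := ⟨fun g x => (mv g.s x.1, x.2 + L x.1.1 g.a)⟩

lemma smul_def {k m : ℕ} (g : GG k m) (x : X k m) : g • x = (mv g.s x.1, x.2 + L x.1.1 g.a) := rfl

instance (k m : ℕ) : MulAction (GG k m) (X k m) where
  one_smul x := by
    rw [smul_def]
    ext1
    · rfl
    · simp [L_zero]
  mul_smul g h x := by
    rw [smul_def, smul_def, smul_def]
    ext1
    · rfl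
    · simp only [mul_a, L_add, add_assoc]
      rw [← L_comp]
      rfl

lemma L_surj {k m : ℕ} (c : Y k) (x : Fin k → ZMod m) : ∃ a, L c.1 a = x := by
  obtain ⟨τ, hτ⟩ := c.2
  refine ⟨fun i => if ((τ i).2 : ℕ) = 0 then x (τ i).1 else 0, ?_⟩
  funext j
  simp only [L, hτ, Function.comp]
  rw [Equiv.sum_comp τ (fun i : I k => if i.1 = j then (if (i.2 : ℕ) = 0 then x i.1 else 0) else 0)]
  rw [Fintype.sum_sigma, Finset.sum_eq_single j]
  · rw [Finset.sum_eq_single ⟨0, by positivity⟩]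
    · simp
    · intro b _ hb
      have : (b : ℕ) ≠ 0 := fun h => hb (Fin.ext h)
      simp [this]
    · simp
  · intro b _ hb
    simp [hb]
  · simp

lemma pretrans (k m : ℕ) : MulAction.IsPretransitive (GG k m) (X k m) := by
  constructor
  rintro ⟨c, x⟩ ⟨d, y⟩
  obtain ⟨a, ha⟩ := L_surj c (y - x)
  obtain ⟨σ, hσ⟩ := c.2
  obtain ⟨τ, hτ⟩ := d.2
  refine ⟨⟨a, τ⁻¹ * σ⟩, ?_⟩
  rw [smul_def]
  ext1
  · apply Subtype.ext
    simp only [mv]
    rw [hσ, hτ]
    funext i
    simp [Equiv.Perm.mul_def, Equiv.Perm.inv_def]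
  · simp [ha]

lemma card_I (k : ℕ) : Fintype.card (I k) + 1 = 2 ^ k := by
  rw [Fintype.card_sigma]
  simp only [Fintype.card_fin]
  rw [Fin.sum_univ_eq_sum_range (fun j => 2 ^ j) k]
  induction k with
  | zero => simp
  | succ n ih => rw [Finset.sum_range_succ, pow_succ]; omega

lemma exists_colouring {k : ℕ} (s : Finset (I k)) :
    ∃ (c : Y k) (J : Finset (Fin k)), ∀ i, c.1 i ∈ J ↔ i ∈ s := by
  classical
  have h1 : s.card < 2 ^ k := by
    have := s.card_le_univ
    have := card_I k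
    omega
  obtain ⟨f, hf⟩ := (finFunctionFinEquiv (m := 2) (n := k)).surjective ⟨s.card, h1⟩
  have h2 : ∑ i : Fin k, (f i : ℕ) * 2 ^ (i : ℕ) = s.card := by
    rw [← finFunctionFinEquiv_apply, hf]
  let J : Finset (Fin k) := Finset.univ.filter (fun j => f j = 1)
  let t : Finset (I k) := Finset.univ.filter (fun i => i.1 ∈ J)
  have ht : s.card = t.card := by
    rw [← h2, Finset.card_filter, Fintype.sum_sigma]
    refine Finset.sum_congr rfl fun j _ => ?_
    have : f j = 0 ∨ f j = 1 := by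
      rcases f j with ⟨v, hv⟩
      interval_cases v
      · left; rfl
      · right; rfl
    rcases this with h | h <;> simp [J, h]
  obtain ⟨σ, hσ⟩ := Equiv.Perm.exists_map_finset_eq s t ht
  refine ⟨⟨Sigma.fst ∘ σ, σ, rfl⟩, J, fun i => ?_⟩
  have : σ i ∈ t ↔ i ∈ s := by
    rw [← hσ]
    simp
  rw [← this]
  simp [t]

lemma sum_uniform {G Z R : Type} [Group G] [MulAction G Z] [Fintype Z] [DecidableEq Z]
    [CommRing R] [IsDomain R] [CharZero R] (T : Finset G) (x : Z)
    (hT : ∀ y : Z, (T.filter (fun g => g • x = y)).card * Fintype.card Z = T.card)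
    (F : Z → R) (hF : ∑ y, F y = 0) : ∑ g ∈ T, F (g • x) = 0 := by
  have hZ : (Fintype.card Z : R) ≠ 0 := by
    have : Nonempty Z := ⟨x⟩
    exact Nat.cast_ne_zero.2 Fintype.card_ne_zero
  apply mul_right_cancel₀ hZ
  rw [zero_mul, ← Finset.sum_fiberwise (s := T) (g := fun g => g • x), Finset.sum_mul]
  have : ∀ y : Z, (∑ g ∈ T with g • x = y, F (g • x)) * (Fintype.card Z : R) = T.card * F y := by
    intro y
    rw [Finset.sum_congr rfl (g := fun _ => F y) (fun g hg => by rw [(Finset.mem_filter.1 hg).2]),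
      Finset.sum_const, nsmul_eq_mul, ← hT y]
    push_cast
    ring
  simp only [this, ← Finset.mul_sum, hF, mul_zero]

lemma addChar_sum {A R ι : Type} [AddCommMonoid A] [CommMonoid R] (e : AddChar A R)
    (s : Finset ι) (f : ι → A) : e (∑ i ∈ s, f i) = ∏ i ∈ s, e (f i) := by
  classical
  induction s using Finset.induction_on with
  | empty => simp
  | insert a s ha ih => rw [Finset.sum_insert ha, Finset.prod_insert ha, e.map_add_eq_mul, ih]

lemma key {k m : ℕ} [NeZero m] [DecidableEq (X k m)] {R : Type} [CommRing R] [IsDomain R]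
    [CharZero R] (ζ : R) (hζ : ζ ^ m = 1) (hζ1 : ζ ≠ 1) (T : Finset (GG k m))
    (hT : ∀ x y : X k m, (T.filter (fun g => g • x = y)).card * Fintype.card (X k m) = T.card) :
    (1 - ζ) ^ Fintype.card (I k) ∣ (T.card : R) := by
  classical
  let e : AddChar (ZMod m) R := AddChar.zmodChar m hζ
  have he1 : e ((1 : ℕ) : ZMod m) = ζ := by
    rw [AddChar.zmodChar_apply', pow_one]
  have hs : ∀ s : Finset (I k), s.Nonempty → ∑ g ∈ T, ∏ i ∈ s, e (g.a i) = 0 := by
    intro s hsn
    obtain ⟨c, J, hJ⟩ := exists_colouring s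
    have hF : ∑ y : X k m, e (∑ j ∈ J, y.2 j) = 0 := by
      rw [Fintype.sum_prod_type]
      refine Finset.sum_eq_zero fun d _ => ?_
      let φ : (Fin k → ZMod m) →+ ZMod m :=
        { toFun := fun x => ∑ j ∈ J, x j
          map_zero' := by simp
          map_add' := fun x y => by simp [Finset.sum_add_distrib] }
      have h0 : e.compAddMonoidHom φ ≠ 0 := by
        intro h
        obtain ⟨i, hi⟩ := hsn
        have h3 := DFunLike.congr_fun h (Pi.single (c.1 i) ((1 : ℕ) : ZMod m))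
        have h4 : φ (Pi.single (c.1 i) ((1 : ℕ) : ZMod m)) = ((1 : ℕ) : ZMod m) := by
          change ∑ j ∈ J, (Pi.single (c.1 i) ((1 : ℕ) : ZMod m) : Fin k → ZMod m) j = _
          rw [Finset.sum_eq_single (c.1 i)]
          · simp
          · intro b _ hb
            simp [hb]
          · intro h
            exact absurd ((hJ i).2 hi) h
        rw [AddChar.compAddMonoidHom_apply, h4, he1] at h3
        exact hζ1 (by simpa using h3)
      exact AddChar.sum_eq_zero_iff_ne_zero.2 h0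
    have := sum_uniform T ((c, 0) : X k m) (hT _) (fun y => e (∑ j ∈ J, y.2 j)) hF
    rw [← this]
    refine Finset.sum_congr rfl fun g _ => ?_
    rw [← addChar_sum]
    congr 1
    simp only [smul_def, zero_add, L]
    rw [Finset.sum_comm]
    rw [← Finset.sum_subset (Finset.subset_univ s)]
    · refine Finset.sum_congr rfl fun i hi => ?_
      rw [Finset.sum_ite_eq, if_pos ((hJ i).2 hi)]
    · intro i _ hi
      rw [Finset.sum_ite_eq, if_neg (fun h => hi ((hJ i).1 h))]
  have hcube : ∑ g ∈ T, ∏ i : I k, (1 - e (g.a i)) = (T.card : R) := by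
    have h1 : ∀ g : GG k m, ∏ i : I k, (1 - e (g.a i)) =
        ∑ s ∈ (Finset.univ : Finset (I k)).powerset, (-1) ^ s.card * ∏ i ∈ s, e (g.a i) := by
      intro g
      simp only [sub_eq_add_neg]
      rw [Finset.prod_one_add]
      refine Finset.sum_congr rfl fun s _ => ?_
      rw [Finset.prod_neg]
    simp only [h1]
    rw [Finset.sum_comm, Finset.sum_eq_single ∅]
    · simp
    · intro s _ hsn
      rw [← Finset.mul_sum, hs s (Finset.nonempty_iff_ne_empty.2 hsn), mul_zero]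
    · simp
  rw [← hcube]
  refine Finset.dvd_sum fun g _ => ?_
  rw [← Finset.card_univ, ← Finset.prod_const]
  refine Finset.prod_dvd_prod_of_dvd _ _ fun i _ => ?_
  rw [AddChar.zmodChar_apply]
  exact one_sub_dvd_one_sub_pow ζ _

lemma prime_pow_dvd {p r N : ℕ} (hp : p.Prime)
    (h : ∀ ζ : integralClosure ℤ ℂ, ζ ^ p = 1 → ζ ≠ 1 → (1 - ζ) ^ r ∣ (N : integralClosure ℤ ℂ)) :
    p ^ r ∣ N ^ (p - 1) := by
  obtain ⟨n, rfl⟩ : ∃ n, p = n + 1 := ⟨p - 1, by have := hp.pos; omega⟩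
  have hz := Complex.isPrimitiveRoot_exp (n + 1) hp.ne_zero
  let μ : integralClosure ℤ ℂ := ⟨_, hz.isIntegral hp.pos⟩
  have hμ : IsPrimitiveRoot μ (n + 1) :=
    IsPrimitiveRoot.of_map_of_injective (f := (integralClosure ℤ ℂ).val) hz Subtype.val_injective
  have h1 := hμ.prod_one_sub_pow_eq_order
  have h2 : ∏ u ∈ Finset.range n, (1 - μ ^ (u + 1)) ^ r ∣
      ∏ _u ∈ Finset.range n, (N : integralClosure ℤ ℂ) := by
    refine Finset.prod_dvd_prod_of_dvd _ _ fun u hu => h _ ?_ ?_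
    · rw [← pow_mul, mul_comm, pow_mul, hμ.pow_eq_one, one_pow]
    · exact hμ.pow_ne_one_of_pos_of_lt (by omega) (by have := Finset.mem_range.1 hu; omega)
  rw [Finset.prod_pow, h1, Finset.prod_const, Finset.card_range] at h2
  obtain ⟨β, hβ⟩ := h2
  have hβ' : (N : ℂ) ^ n = ((n : ℂ) + 1) ^ r * (β : ℂ) := by
    have := congrArg (fun z : integralClosure ℤ ℂ => (z : ℂ)) hβ
    simpa using this
  have hn0 : ((n : ℂ) + 1) ≠ 0 := by exact_mod_cast hp.ne_zero
  have hq : algebraMap ℚ ℂ ((N : ℚ) ^ n / ((n : ℚ) + 1) ^ r) = β := by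
    simp only [map_div₀, map_pow, map_natCast, map_add, map_one]
    rw [hβ']
    field_simp
  have hi : IsIntegral ℤ ((N : ℚ) ^ n / ((n : ℚ) + 1) ^ r) := by
    rw [← isIntegral_algebraMap_iff (algebraMap ℚ ℂ).injective, hq]
    exact β.2
  obtain ⟨z, hz⟩ := IsIntegrallyClosed.isIntegral_iff.1 hi
  have hq0 : ((n : ℚ) + 1) ^ r ≠ 0 := by positivity
  rw [eq_div_iff hq0] at hz
  have : ((n + 1 : ℕ) : ℤ) ^ r ∣ (N : ℤ) ^ n := by
    refine ⟨z, ?_⟩
    have h5 : ((N : ℤ) ^ n : ℚ) = (((n + 1 : ℕ) : ℤ) ^ r * z : ℤ) := by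
      push_cast
      simp only [eq_intCast] at hz
      rw [← hz]
      ring
    exact_mod_cast h5
  simp only [Nat.add_sub_cancel]
  exact_mod_cast this

lemma sum_id_pow (k : ℕ) : ∑ j ∈ Finset.range k, 2 ^ j * j + 2 * 2 ^ k = k * 2 ^ k + 2 := by
  induction k with
  | zero => simp
  | succ n ih =>
    rw [Finset.sum_range_succ, pow_succ]
    nlinarith [ih]

lemma card_Y (k : ℕ) : Fintype.card (Y k) ≤ 2 ^ (2 * 2 ^ k) := by
  classical
  set S := ∑ j ∈ Finset.range k, 2 ^ j * j with hS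
  have h1 : ∀ c : Y k, ∏ i, 2 ^ (c.1 i : ℕ) = 2 ^ S := by
    intro c
    obtain ⟨σ, hσ⟩ := c.2
    rw [hσ, Finset.prod_pow_eq_pow_sum]
    congr 1
    simp only [Function.comp]
    rw [Equiv.sum_comp σ (fun i : I k => (i.1 : ℕ)), Fintype.sum_sigma, hS,
      ← Fin.sum_univ_eq_sum_range (fun j => 2 ^ j * j) k]
    simp
  have h2 : ∑ c : I k → Fin k, ∏ i, 2 ^ (c i : ℕ) =
      (Fintype.card (I k)) ^ (Fintype.card (I k)) := by
    have := Finset.prod_univ_sum (fun _ : I k => (Finset.univ : Finset (Fin k)))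
      (fun _ j => 2 ^ (j : ℕ))
    rw [Fintype.piFinset_univ] at this
    rw [← this, Finset.prod_const, Finset.card_univ]
    congr 1
    rw [Fintype.card_sigma]
    simp
  have h3 : Fintype.card (Y k) * 2 ^ S ≤ (Fintype.card (I k)) ^ (Fintype.card (I k)) := by
    rw [← h2]
    calc Fintype.card (Y k) * 2 ^ S = ∑ c : Y k, ∏ i, 2 ^ (c.1 i : ℕ) := by
          simp only [h1, Finset.sum_const, Finset.card_univ, smul_eq_mul]
      _ = ∑ c ∈ (Finset.univ : Finset (Y k)).map (Function.Embedding.subtype _),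
            ∏ i, 2 ^ (c i : ℕ) := by
          rw [Finset.sum_map]; rfl
      _ ≤ _ := Finset.sum_le_sum_of_subset (Finset.subset_univ _)
  have h4 := card_I k
  have h5 := sum_id_pow k
  rw [← hS] at h5
  have h6 : (Fintype.card (I k)) ^ (Fintype.card (I k)) ≤ 2 ^ (2 * 2 ^ k) * 2 ^ S := by
    calc (Fintype.card (I k)) ^ (Fintype.card (I k)) ≤ (2 ^ k) ^ (2 ^ k) :=
          le_trans (Nat.pow_le_pow_left (by omega) _)
            (Nat.pow_le_pow_right (by positivity) (by omega))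
      _ ≤ _ := by
          rw [← pow_mul, ← pow_add]
          exact Nat.pow_le_pow_right (by norm_num) (by omega)
  exact Nat.le_of_mul_le_mul_right (h3.trans h6) (by positivity)

lemma card_X (m : ℕ) [NeZero m] : Fintype.card (X (2 * m) m) ≤ 2 ^ (4 * 2 ^ (2 * m)) := by
  rw [Fintype.card_prod, Fintype.card_fun, ZMod.card, Fintype.card_fin]
  have h1 : m ≤ 2 ^ m := Nat.lt_two_pow_self.le
  have h2 : m ^ (2 * m) ≤ 2 ^ (2 * 2 ^ (2 * m)) := by
    calc m ^ (2 * m) ≤ (2 ^ m) ^ (2 * m) := Nat.pow_le_pow_left h1 _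
      _ = 2 ^ (m * (2 * m)) := by rw [← pow_mul]
      _ ≤ _ := by
          refine Nat.pow_le_pow_right (by norm_num) ?_
          have : 2 ^ (2 * m) = 2 ^ m * 2 ^ m := by rw [two_mul, pow_add]
          rw [this]
          nlinarith [Nat.mul_le_mul h1 h1]
  calc _ ≤ 2 ^ (2 * 2 ^ (2 * m)) * 2 ^ (2 * 2 ^ (2 * m)) := Nat.mul_le_mul (card_Y _) h2
    _ = _ := by rw [← pow_add]; congr 1; ring

lemma lower {N r : ℕ} (hN : N ≠ 0) (P : Finset ℕ) (hP : ∀ p ∈ P, p.Prime)
    (h : ∀ p ∈ P, p ^ r ∣ N ^ (p - 1)) :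
    (2 : ℝ) ^ ((r : ℝ) * ∑ p ∈ P, (1 / p : ℝ)) ≤ N := by
  classical
  have h1 : ∀ p ∈ P, (r : ℝ) * (1 / p : ℝ) ≤ N.factorization p := by
    intro p hp
    have hpp := hP p hp
    have := (hpp.pow_dvd_iff_le_factorization (pow_ne_zero _ hN)).1 (h p hp)
    rw [Nat.factorization_pow] at this
    simp only [Finsupp.smul_apply, smul_eq_mul] at this
    have h2 : r ≤ N.factorization p * p := by
      calc r ≤ (p - 1) * N.factorization p := this
        _ ≤ p * N.factorization p := Nat.mul_le_mul_right _ (Nat.sub_le _ _)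
        _ = _ := mul_comm _ _
    have hp0 : (0 : ℝ) < p := by exact_mod_cast hpp.pos
    rw [mul_one_div, div_le_iff₀ hp0]
    exact_mod_cast h2
  have h2 : ∏ p ∈ P, p ^ N.factorization p ∣ N := by
    conv_rhs => rw [← Nat.prod_factorization_pow_eq_self hN]
    rw [Finsupp.prod_of_support_subset _ (s := P ∪ N.factorization.support)
      Finset.subset_union_right _ (by simp)]
    exact Finset.prod_dvd_prod_of_subset _ _ _ Finset.subset_union_left
  have h3 : 2 ^ (∑ p ∈ P, N.factorization p) ≤ N := by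
    refine le_trans ?_ (Nat.le_of_dvd (Nat.pos_of_ne_zero hN) h2)
    rw [← Finset.prod_pow_eq_pow_sum]
    exact Finset.prod_le_prod' fun p hp => Nat.pow_le_pow_left (hP p hp).two_le _
  calc (2 : ℝ) ^ ((r : ℝ) * ∑ p ∈ P, (1 / p : ℝ))
      ≤ (2 : ℝ) ^ ((∑ p ∈ P, N.factorization p : ℕ) : ℝ) := by
        refine Real.rpow_le_rpow_of_exponent_le (by norm_num) ?_
        rw [Finset.mul_sum]
        push_cast
        exact Finset.sum_le_sum h1
    _ ≤ N := by
        rw [Real.rpow_natCast]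
        exact_mod_cast h3

lemma exists_primes (c : ℝ) : ∃ P : Finset ℕ, (∀ p ∈ P, p.Prime) ∧ c < ∑ p ∈ P, (1 / p : ℝ) := by
  classical
  by_contra hcon
  push Not at hcon
  apply Nat.Primes.not_summable_one_div
  refine summable_of_sum_le (c := c) (fun p => by positivity) fun u => ?_
  have := hcon (u.map (Function.Embedding.subtype _)) (by
    intro p hp
    obtain ⟨q, _, rfl⟩ := Finset.mem_map.1 hp
    exact q.2)
  exact le_of_eq_of_le (Finset.sum_map u (Function.Embedding.subtype _)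
    (fun p : ℕ => (1 / p : ℝ))).symm this

theorem main : ¬ (∃ c : ℝ, 0 < c ∧
      ∀ (G : Type) (X : Type) [Group G] [Fintype G] [MulAction G X] [Fintype X]
        [DecidableEq X] [Nonempty X],
        MulAction.IsPretransitive G X →
          ∃ T : Finset G, T.Nonempty ∧
            (∀ x y : X, (T.filter (fun g => g • x = y)).card * Fintype.card X = T.card) ∧
            (T.card : ℝ) ≤ (Fintype.card X : ℝ) ^ c) := by
  classical
  rintro ⟨c, hc, H⟩
  obtain ⟨P, hP, hPc⟩ := exists_primes (8 * c)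
  set m := ∏ p ∈ P, p with hm
  have hm0 : m ≠ 0 := Finset.prod_ne_zero_iff.2 fun p hp => (hP p hp).ne_zero
  have : NeZero m := ⟨hm0⟩
  have : Nonempty (X (2 * m) m) := ⟨(⟨Sigma.fst, 1, rfl⟩, 0)⟩
  obtain ⟨T, hTn, hT, hle⟩ := H (GG (2 * m) m) (X (2 * m) m) (pretrans _ _)
  set r := Fintype.card (I (2 * m)) with hr
  have hN : T.card ≠ 0 := hTn.card_pos.ne'
  have hlow := lower (r := r) hN P hP (fun p hp => prime_pow_dvd (hP p hp) fun ζ h1 h2 => by
    refine key ζ ?_ h2 T hT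
    obtain ⟨d, hd⟩ : p ∣ m := Finset.dvd_prod_of_mem _ hp
    rw [hd, pow_mul, h1, one_pow])
  have h4 := card_I (2 * m)
  rw [← hr] at h4
  have h5 : 2 ≤ 2 ^ (2 * m) := by
    calc 2 = 2 ^ 1 := by norm_num
      _ ≤ _ := Nat.pow_le_pow_right (by norm_num) (by omega)
  have h6 : Fintype.card (X (2 * m) m) ≤ 2 ^ (8 * r) :=
    (card_X m).trans (Nat.pow_le_pow_right (by norm_num) (by omega))
  have h7 : (Fintype.card (X (2 * m) m) : ℝ) ^ c ≤ (2 : ℝ) ^ ((r : ℝ) * (8 * c)) := by
    calc (Fintype.card (X (2 * m) m) : ℝ) ^ c ≤ ((2 : ℝ) ^ (((8 * r : ℕ) : ℝ))) ^ c := by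
          refine Real.rpow_le_rpow (by positivity) ?_ hc.le
          rw [Real.rpow_natCast]
          exact_mod_cast h6
      _ = _ := by
          rw [← Real.rpow_mul (by norm_num)]
          congr 1
          push_cast
          ring
  have hr0 : (0 : ℝ) < r := by
    have : 0 < r := by omega
    exact_mod_cast this
  have h8 : (2 : ℝ) ^ ((r : ℝ) * (8 * c)) < (2 : ℝ) ^ ((r : ℝ) * ∑ p ∈ P, (1 / p : ℝ)) :=
    Real.rpow_lt_rpow_of_exponent_lt (by norm_num) (mul_lt_mul_of_pos_left hPc hr0)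
  linarith

end Pool.Agent.H906Z.Unif
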